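import Pool.Agent.Work.MP_768e99_chordal.Main

set_option autoImplicit false

namespace Pool.Agent.Results.MP_768e99_co.Chordal

open Pool.Agent.Work.MP_768e99_co Pool.Agent.Work.MP_768e99_chordal

/-- Let `G` be a finite chordal graph (no induced cycle of length at least four) without a
`K_{r,s}` minor, `0 ≤ d ≤ s - 1` and `k = r + s - 1 - d`. Every injective colouring with `k`
colours of a clique `R` of at most `k - 1` vertices extends to a colouring of `G` with `k` colours
in which every vertex has at most `d` neighbours of its own colour and the vertices of `R` have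
none. -/
theorem result {V : Type*} [Finite V] (G : SimpleGraph V)
    (hG : ∀ n : ℕ, 4 ≤ n → IsEmpty (SimpleGraph.cycleGraph n ↪g G)) (r s d : ℕ) (hr : 1 ≤ r)
    (hd : d + 1 ≤ s) (hm : ¬ HasBicliqueMinor G r s)
    (R : Set V) (hR : G.IsClique R) (hRc : R.ncard + d + 2 ≤ r + s)
    (f : V → Fin (r + s - 1 - d)) (hf : Set.InjOn f R) :
    ∃ c : V → Fin (r + s - 1 - d), (∀ x ∈ R, c x = f x) ∧
      (∀ x ∈ R, ∀ y, G.Adj x y → c y ≠ c x) ∧
      ∀ v, {w | G.Adj v w ∧ c w = c v}.ncard ≤ d := by
  exact extend hG (by omega) (by omega) hm R hR (by omega) f hf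

end Pool.Agent.Results.MP_768e99_co.Chordal
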