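import Pool.Agent.Work.MP_768e99_r3.AL
import Pool.Agent.Work.MP_768e99_r3.TR
import Pool.Agent.Work.MP_768e99_five.Final
import Pool.Agent.Work.MP_768e99_four.Final

set_option autoImplicit false

namespace Pool.Agent.Results.MP_768e99_co.RThree

open Pool.Agent.Work.MP_768e99_co Pool.Agent.Work.MP_768e99_pocket
  Pool.Agent.Work.MP_768e99_r3

/-- `9 * 10^28 * (n + 1)^12 ≤ 2^n` for `n ≥ 200`. -/
lemma log_bound (n : ℕ) (hn : 200 ≤ n) :
    90000000000000000000000000000 * (n + 1) ^ 12 ≤ 2 ^ n := by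
  induction n, hn using Nat.le_induction with
  | base => norm_num
  | succ n hn ih =>
    have h1 : 201 * (n + 1 + 1) ≤ 202 * (n + 1) := by omega
    have h2 : (201 * (n + 1 + 1)) ^ 12 ≤ (202 * (n + 1)) ^ 12 := Nat.pow_le_pow_left h1 12
    rw [mul_pow, mul_pow] at h2
    have h3 : (202 : ℕ) ^ 12 ≤ 2 * 201 ^ 12 := by norm_num
    have h4 : 201 ^ 12 * (n + 1 + 1) ^ 12 ≤ 201 ^ 12 * (2 * (n + 1) ^ 12) := by
      calc 201 ^ 12 * (n + 1 + 1) ^ 12 ≤ 202 ^ 12 * (n + 1) ^ 12 := h2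
        _ ≤ (2 * 201 ^ 12) * (n + 1) ^ 12 := Nat.mul_le_mul_right _ h3
        _ = 201 ^ 12 * (2 * (n + 1) ^ 12) := by ring
    have h5 : (n + 1 + 1) ^ 12 ≤ 2 * (n + 1) ^ 12 :=
      Nat.le_of_mul_le_mul_left h4 (by positivity)
    calc 90000000000000000000000000000 * (n + 1 + 1) ^ 12
        ≤ 90000000000000000000000000000 * (2 * (n + 1) ^ 12) := Nat.mul_le_mul_left _ h5
      _ = 2 * (90000000000000000000000000000 * (n + 1) ^ 12) := by ring
      _ ≤ 2 * 2 ^ n := Nat.mul_le_mul_left _ ih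
      _ = 2 ^ (n + 1) := by ring

/-- Q1 for `r = 3`: if `s ≥ 2^200` and `0 ≤ d ≤ s - 1`, or `s ≥ 38` and `3 ≤ d ≤ s - 1`, every
finite `K_{3,s}`-minor-free graph is `(3 + s - 1 - d, d)*`-colourable. -/
theorem result {V : Type*} [Finite V] (G : SimpleGraph V) (s d : ℕ) (hd : d < s)
    (h : 2 ^ 200 ≤ s ∨ (38 ≤ s ∧ 3 ≤ d)) (hG : ¬ HasBicliqueMinor G 3 s) :
    DefColorable G (3 + s - 1 - d) d := by
  have hs38 : 38 ≤ s := by
    rcases h with h | h
    · exact le_trans (by norm_num) h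
    · exact h.1
  obtain ⟨G', hG1, hG2⟩ := transport G
  rcases Nat.lt_or_ge d 3 with hd3 | hd3
  · -- `d ≤ 2`
    have hs : 2 ^ 200 ≤ s := by
      rcases h with h | h
      · exact h
      · omega
    have h200 : 200 ≤ Nat.log 2 s := Nat.le_log_of_pow_le (by norm_num) hs
    have hb := log_bound _ h200
    have hlog : 2 ^ Nat.log 2 s ≤ s := Nat.pow_log_le_self 2 (by omega)
    have hmin : min 3 s = 3 := by omega
    have hmax : max 3 s = s := by omega
    refine almostLinear G 3 s d (by norm_num) (by omega) ?_ hG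
    rw [hmin, hmax]
    set L := Nat.log 2 s + 1 with hL
    have hL12 : 201 ^ 6 ≤ L ^ 6 := Nat.pow_le_pow_left (by omega) 6
    have h6 : L ^ 12 = L ^ 6 * L ^ 6 := by ring
    have h7 : 201 ^ 6 * L ^ 6 ≤ L ^ 12 := by rw [h6]; exact Nat.mul_le_mul_right _ hL12
    split_ifs with h0
    · omega
    · omega
  · have hcases : d + 1 = s ∨ d + 2 = s ∨ d + 3 = s ∨ d + 4 ≤ s := by omega
    rcases hcases with h1 | h1 | h1 | h1
    · exact (twoRoot G 3 s d (by norm_num) (by omega) hG).2 (Or.inl ⟨rfl, Or.inl h1⟩)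
    · subst h1
      have := hG2 _ _ (Pool.K4.four_type0 d (by omega) (Fin (Nat.card V)) G'
        (fun hm => hG (hG1 _ _ hm)))
      have he : 3 + (d + 2) - 1 - d = 4 := by omega
      rw [he]
      exact this
    · subst h1
      have := hG2 _ _ (Pool.K3F.five_type0 d 3 (by norm_num) (by omega) (Fin (Nat.card V)) G'
        (fun hm => hG (hG1 _ _ hm)))
      have he : 3 + (d + 3) - 1 - d = 5 := by omega
      rw [he]
      exact this
    · refine (twoRoot G 3 s d (by norm_num) (by omega) hG).2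
        (Or.inl ⟨rfl, Or.inr (Or.inl ⟨hd3, h1, ?_⟩)⟩)
      omega

end Pool.Agent.Results.MP_768e99_co.RThree
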